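import Pool.Agent.H717.NL.Stmts2

/-! Second difference of the spectral potential (subtask 5565, for helper717). -/

set_option autoImplicit false

namespace Pool.Agent.H553.NL

open Pool.Agent.H717.NL Polynomial Matrix

variable {n : ℕ}

theorem qf_symm {N : Matrix (Fin n) (Fin n) ℝ} (hN : N.IsSymm) (x y : Fin n → ℝ) :
    qf N x y = qf N y x := by
  unfold qf
  rw [dotProduct_mulVec, ← mulVec_transpose, hN.eq, dotProduct_comm]

theorem qf_lin {N : Matrix (Fin n) (Fin n) ℝ} (hN : N.IsSymm) (x y : Fin n → ℝ) (α β : ℝ) :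
    qf N (α • x + β • y) (α • x + β • y) =
      α ^ 2 * qf N x x + β ^ 2 * qf N y y + 2 * α * β * qf N x y := by
  have h := qf_symm hN y x
  unfold qf at h ⊢
  simp only [mulVec_add, mulVec_smul, dotProduct_add, add_dotProduct, smul_dotProduct,
    dotProduct_smul, smul_eq_mul]
  rw [h]
  ring

/-- the rotated basis -/
noncomputable def rot (u : Fin n → Fin n → ℝ) (a b : Fin n) (α β : ℝ) : Fin n → Fin n → ℝ :=
  fun k => if k = b then α • u a + β • u b else if k = a then β • u a + (-α) • u b else u k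

theorem rot_on {u : Fin n → Fin n → ℝ} (hu : ON u) {a b : Fin n} (hab : a ≠ b) {α β : ℝ}
    (h : α ^ 2 + β ^ 2 = 1) : ON (rot u a b α β) := by
  have hu' : ∀ i j, u i ⬝ᵥ u j = if i = j then 1 else 0 := hu
  have haa : u a ⬝ᵥ u a = 1 := by rw [hu', if_pos rfl]
  have hbb : u b ⬝ᵥ u b = 1 := by rw [hu', if_pos rfl]
  have hab0 : u a ⬝ᵥ u b = 0 := by rw [hu', if_neg hab]
  have hba0 : u b ⬝ᵥ u a = 0 := by rw [hu', if_neg (Ne.symm hab)]
  have hdot : ∀ i j, rot u a b α β i ⬝ᵥ rot u a b α β j = if i = j then 1 else 0 := by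
    intro i j
    unfold rot
    by_cases hib : i = b
    · subst hib
      by_cases hjb : j = i
      · subst hjb
        simp only [if_true, dotProduct_add, add_dotProduct, smul_dotProduct, dotProduct_smul,
          smul_eq_mul, haa, hbb, hab0, hba0]
        linarith
      · by_cases hja : j = a
        · subst hja
          simp only [if_true, if_neg hjb, dotProduct_add, add_dotProduct, smul_dotProduct,
            dotProduct_smul, smul_eq_mul, haa, hbb, hab0, hba0, if_neg (Ne.symm hjb)]
          ring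
        · simp only [if_true, if_neg hjb, if_neg hja, dotProduct_add, add_dotProduct,
            smul_dotProduct, dotProduct_smul, smul_eq_mul, if_neg (Ne.symm hjb), hu',
            if_neg (Ne.symm hja)]
          ring
    · by_cases hia : i = a
      · subst hia
        by_cases hjb : j = b
        · subst hjb
          simp only [if_true, if_neg hib, dotProduct_add, add_dotProduct, smul_dotProduct,
            dotProduct_smul, smul_eq_mul, haa, hbb, hab0, hba0]
          ring
        · by_cases hja : j = i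
          · subst hja
            simp only [if_true, if_neg hib, dotProduct_add, add_dotProduct, smul_dotProduct,
              dotProduct_smul, smul_eq_mul, haa, hbb, hab0, hba0]
            linarith
          · simp only [if_true, if_neg hib, if_neg hjb, if_neg hja, dotProduct_add,
              add_dotProduct, smul_dotProduct, dotProduct_smul, smul_eq_mul, hu',
              if_neg (Ne.symm hjb), if_neg (Ne.symm hja)]
            ring
      · by_cases hjb : j = b
        · subst hjb
          simp only [if_true, if_neg hib, if_neg hia, dotProduct_add, add_dotProduct,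
            smul_dotProduct, dotProduct_smul, smul_eq_mul, hu']
          ring
        · by_cases hja : j = a
          · subst hja
            simp only [if_true, if_neg hib, if_neg hia, if_neg hjb, dotProduct_add,
              add_dotProduct, smul_dotProduct, dotProduct_smul, smul_eq_mul, hu']
            ring
          · simp only [if_neg hib, if_neg hia, if_neg hjb, if_neg hja, hu']
  exact hdot

/-- Ky Fan for the rotated basis -/
theorem key (h : S_kyfan) {N : Matrix (Fin n) (Fin n) ℝ} {l' : Fin n → ℝ} (hN : N.IsSymm)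
    (hl : Spec N l') {u : Fin n → Fin n → ℝ} (hu : ON u) {a b : Fin n} (hab : a ≠ b) {α β : ℝ}
    (hαβ : α ^ 2 + β ^ 2 = 1) :
    ∑ i : Fin n, ((i : ℕ) : ℝ) * qf N (u i) (u i) +
      (((b : ℕ) : ℝ) - ((a : ℕ) : ℝ)) * (α ^ 2 * (qf N (u a) (u a) - qf N (u b) (u b)) +
        2 * α * β * qf N (u a) (u b)) ≤ ∑ i : Fin n, ((i : ℕ) : ℝ) * l' i := by
  have h1 := h n N l' (rot u a b α β) hN hl (rot_on hu hab hαβ)
  have h2 : ∑ i : Fin n, ((i : ℕ) : ℝ) *
      (qf N (rot u a b α β i) (rot u a b α β i) - qf N (u i) (u i)) =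
      ((a : ℕ) : ℝ) * (qf N (rot u a b α β a) (rot u a b α β a) - qf N (u a) (u a)) +
      ((b : ℕ) : ℝ) * (qf N (rot u a b α β b) (rot u a b α β b) - qf N (u b) (u b)) := by
    refine Finset.sum_eq_add a b hab ?_ ?_ ?_
    · intro c _ hc
      have : rot u a b α β c = u c := by
        unfold rot
        rw [if_neg hc.2, if_neg hc.1]
      rw [this, sub_self, mul_zero]
    · intro hh; exact absurd (Finset.mem_univ _) hh
    · intro hh; exact absurd (Finset.mem_univ _) hh
  have ha : rot u a b α β a = β • u a + (-α) • u b := by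
    unfold rot
    rw [if_neg hab, if_pos rfl]
  have hb : rot u a b α β b = α • u a + β • u b := by
    unfold rot
    rw [if_pos rfl]
  rw [ha, hb, qf_lin hN, qf_lin hN] at h2
  have h3 : ∑ i : Fin n, ((i : ℕ) : ℝ) *
      (qf N (rot u a b α β i) (rot u a b α β i) - qf N (u i) (u i)) =
      ∑ i : Fin n, ((i : ℕ) : ℝ) * qf N (rot u a b α β i) (rot u a b α β i) -
      ∑ i : Fin n, ((i : ℕ) : ℝ) * qf N (u i) (u i) := by
    rw [← Finset.sum_sub_distrib]
    exact Finset.sum_congr rfl fun i _ => by ring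
  rw [h3] at h2
  have h4 : β ^ 2 = 1 - α ^ 2 := by linarith
  rw [h4] at h2
  nlinarith [h1, h2]

theorem qf_pert (M X : Matrix (Fin n) (Fin n) ℝ) (c : ℝ) (x y : Fin n → ℝ) :
    qf (M + c • X) x y = qf M x y + c * qf X x y := by
  unfold qf
  rw [add_mulVec, smul_mulVec, dotProduct_add, dotProduct_smul, smul_eq_mul]

theorem t_second (h : S_kyfan) : S_second := by
  intro n M X w l lp lm u hM hX hw hl hlp hlm hu hev
  have hu' : ∀ i j, u i ⬝ᵥ u j = if i = j then 1 else 0 := hu
  have hqM : ∀ i j, qf M (u i) (u j) = if i = j then l j else 0 := by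
    intro i j
    unfold qf
    rw [hev, dotProduct_smul, hu', smul_eq_mul]
    split_ifs <;> simp
  have hlm' : Spec (M + (-w) • X) lm := by
    have e : M + (-w) • X = M - w • X := by rw [neg_smul, sub_eq_add_neg]
    rw [e]; exact hlm
  have hsP : (M + w • X).IsSymm := by
    unfold Matrix.IsSymm
    rw [transpose_add, transpose_smul, hM.eq, hX.eq]
  have hsM : (M + (-w) • X).IsSymm := by
    unfold Matrix.IsSymm
    rw [transpose_add, transpose_smul, hM.eq, hX.eq]
  -- the diagonal sums
  have hdiag : ∀ c : ℝ, ∑ i : Fin n, ((i : ℕ) : ℝ) * qf (M + c • X) (u i) (u i) =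
      ∑ i : Fin n, ((i : ℕ) : ℝ) * l i + c * ∑ i : Fin n, ((i : ℕ) : ℝ) * qf X (u i) (u i) := by
    intro c
    rw [Finset.mul_sum, ← Finset.sum_add_distrib]
    refine Finset.sum_congr rfl fun i _ => ?_
    rw [qf_pert, hqM, if_pos rfl]
    ring
  have hS : ∑ i : Fin n, ((i : ℕ) : ℝ) * (lp i + lm i - 2 * l i) =
      ∑ i : Fin n, ((i : ℕ) : ℝ) * lp i + ∑ i : Fin n, ((i : ℕ) : ℝ) * lm i -
        2 * ∑ i : Fin n, ((i : ℕ) : ℝ) * l i := by
    rw [Finset.mul_sum, ← Finset.sum_add_distrib, ← Finset.sum_sub_distrib]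
    exact Finset.sum_congr rfl fun i _ => by ring
  have h0 : 0 ≤ ∑ i : Fin n, ((i : ℕ) : ℝ) * (lp i + lm i - 2 * l i) := by
    have k1 := h n _ lp u hsP hlp hu
    have k2 := h n _ lm u hsM hlm' hu
    rw [hdiag] at k1 k2
    rw [hS]
    linarith
  refine ⟨h0, fun a b hab => ?_⟩
  have hne : a ≠ b := ne_of_lt hab
  have hba : (1 : ℝ) ≤ ((b : ℕ) : ℝ) - ((a : ℕ) : ℝ) := by
    have : (a : ℕ) + 1 ≤ (b : ℕ) := hab
    have : ((a : ℕ) : ℝ) + 1 ≤ ((b : ℕ) : ℝ) := by exact_mod_cast this
    linarith
  -- from the bound with the factor `b - a`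
  have hfin : ∀ t : ℝ, (((b : ℕ) : ℝ) - ((a : ℕ) : ℝ)) * t ≤
      ∑ i : Fin n, ((i : ℕ) : ℝ) * (lp i + lm i - 2 * l i) →
      t ≤ ∑ i : Fin n, ((i : ℕ) : ℝ) * (lp i + lm i - 2 * l i) := by
    intro t ht
    rcases le_or_gt t 0 with h1 | h1
    · linarith
    · nlinarith
  have kk : ∀ (c : ℝ) (lc : Fin n → ℝ), (M + c • X).IsSymm → Spec (M + c • X) lc →
      ∀ α β : ℝ, α ^ 2 + β ^ 2 = 1 →
      ∑ i : Fin n, ((i : ℕ) : ℝ) * l i + c * ∑ i : Fin n, ((i : ℕ) : ℝ) * qf X (u i) (u i) +
        (((b : ℕ) : ℝ) - ((a : ℕ) : ℝ)) * (α ^ 2 * ((l a + c * qf X (u a) (u a)) -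
          (l b + c * qf X (u b) (u b))) + 2 * α * β * (c * qf X (u a) (u b))) ≤
        ∑ i : Fin n, ((i : ℕ) : ℝ) * lc i := by
    intro c lc hs hsp α β hαβ
    have := key h hs hsp hu hne hαβ
    rw [hdiag, qf_pert, qf_pert, qf_pert, hqM, hqM, hqM, if_pos rfl, if_pos rfl, if_neg hne,
      zero_add] at this
    exact this
  have kP := kk w lp hsP hlp
  have kM := kk (-w) lm hsM hlm'
  constructor
  · apply hfin
    have hs : Real.sqrt (1 / 2) ^ 2 = 1 / 2 := Real.sq_sqrt (by norm_num)
    set s := Real.sqrt (1 / 2) with hs'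
    rcases le_total 0 (qf X (u a) (u b)) with hx | hx
    · rw [abs_of_nonneg hx]
      have k1 := kP s s (by linarith)
      have k2 := kM (-s) s (by rw [neg_sq]; linarith)
      rw [hS]
      have e1 : 2 * s * s = 1 := by nlinarith
      have e2 : 2 * -s * s = -1 := by nlinarith
      rw [e1, hs] at k1
      rw [e2, neg_sq, hs] at k2
      nlinarith [k1, k2]
    · rw [abs_of_nonpos hx]
      have k1 := kP (-s) s (by rw [neg_sq]; linarith)
      have k2 := kM s s (by linarith)
      rw [hS]
      have e1 : 2 * s * s = 1 := by nlinarith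
      have e2 : 2 * -s * s = -1 := by nlinarith
      rw [e2, neg_sq, hs] at k1
      rw [e1, hs] at k2
      nlinarith [k1, k2]
  · apply hfin
    rcases le_total 0 (qf X (u a) (u a) - qf X (u b) (u b)) with hx | hx
    · rw [abs_of_nonneg hx]
      have k1 := kP 1 0 (by norm_num)
      have k2 := kM 0 1 (by norm_num)
      rw [hS]
      nlinarith [k1, k2]
    · rw [abs_of_nonpos hx]
      have k1 := kP 0 1 (by norm_num)
      have k2 := kM 1 0 (by norm_num)
      rw [hS]
      nlinarith [k1, k2]

end Pool.Agent.H553.NL
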